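import Pool.Agent.X14.FL2

/-!
# Fibonacci and Lucas sums with central binomial coefficients modulo `p^2`
-/

set_option autoImplicit false

namespace Pool.Agent.Results.MP_0a65fc_nt.AllFour

open Finset

/-- The Fibonacci numbers, as rational numbers. -/
def F (n : ℕ) : ℚ := (Nat.fib n : ℚ)

/-- The Lucas numbers. -/
def luc : ℕ → ℤ
  | 0 => 2
  | 1 => 1
  | (n + 2) => luc (n + 1) + luc n

/-- The Lucas numbers, as rational numbers. -/
def L (n : ℕ) : ℚ := (luc n : ℚ)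

/-- The central binomial coefficients `c_k`. -/
def c (k : ℕ) : ℚ := (Nat.choose (2 * k) k : ℚ)

/-- The Legendre symbol `(p/5)`. -/
def ε (p : ℕ) : ℤ := jacobiSym (p : ℤ) 5

/-- `q_p = F_{p-ε}/p`. -/
def q (p : ℕ) : ℚ := F ((p : ℤ) - ε p).toNat / p

/-- `a ≡ b (mod p^2)`: `a - b = p^2 z` for a rational `z` whose denominator is prime to `p`. -/
def Cong (p : ℕ) (a b : ℚ) : Prop := ∃ z : ℚ, ¬ p ∣ z.den ∧ a - b = (p : ℚ) ^ 2 * z

open Pool.Agent.H434R2 Pool.Agent.H434R2.PO Pool.Agent.X14 FL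

lemma F_rec (m : ℕ) : F (m + 2) = F (m + 1) + F m := by
  unfold F; rw [Nat.fib_add_two]; push_cast; ring

lemma L_rec (m : ℕ) : L (m + 2) = L (m + 1) + L m := by
  unfold L; rw [luc]; push_cast; ring

lemma L_eq (n : ℕ) : L n = 2 * F (n + 1) - F n := by
  have key : ∀ n, L n = 2 * F (n + 1) - F n ∧ L (n + 1) = 2 * F (n + 2) - F (n + 1) := by
    intro n
    induction n with
    | zero =>
      constructor
      · simp [L, luc, F]
      · simp [L, luc, F, Nat.fib_add_two]; norm_num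
    | succ n ih =>
      refine ⟨ih.2, ?_⟩
      have h1 := L_rec n
      have h2 := F_rec n
      have h3 := F_rec (n + 1)
      rw [show n + 1 + 1 = n + 2 by ring, h1, ih.1, ih.2, show n + 1 + 2 = n + 2 + 1 by ring] at *
      linear_combination (-2) * h3 + h2
  exact (key n).1

lemma cassini (n : ℕ) : F (n + 1) ^ 2 - F (n + 1) * F n - F n ^ 2 = (-1) ^ n := by
  induction n with
  | zero => simp [F]
  | succ n ih =>
    have h2 := F_rec n
    rw [show n + 1 + 1 = n + 2 by ring, h2, pow_succ (-1 : ℚ)]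
    linear_combination -ih

lemma F_double (n : ℕ) : F (2 * n) = F n * L n := by
  rw [L_eq]
  unfold F
  rw [Nat.fib_two_mul, Nat.cast_mul, Nat.cast_sub]
  · push_cast; ring
  · have := Nat.fib_le_fib_succ (n := n); omega

lemma F_double' (n : ℕ) : F (2 * n + 1) = F (n + 1) ^ 2 + F n ^ 2 := by
  unfold F
  rw [Nat.fib_two_mul_add_one]; push_cast; ring

lemma L_double (n : ℕ) : L (2 * n) = L n ^ 2 - 2 * (-1) ^ n := by
  have h1 := L_eq (2 * n)
  have h2 := L_eq n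
  rw [h1, F_double, F_double', ← cassini, h2]
  ring

lemma LF (n : ℕ) : L n ^ 2 - 5 * F n ^ 2 = 4 * (-1) ^ n := by
  rw [← cassini, L_eq]; ring

/-- the facts that depend on `p` modulo `10` -/
lemma cases {p n : ℕ} (hp : p.Prime) (h5 : p ≠ 5) (hn : p = 2 * n + 1) :
    ((ε p : ℤ) : ℚ) ^ 2 = 1 ∧ L p = ε p * F p + 2 * F ((p : ℤ) - ε p).toNat ∧
    U cd F p 0 = -(ε p : ℤ) ∧ U cd L p 0 = 1 ∧ (-1) ^ n * U ce F n 1 = (ε p : ℤ) ∧ (-1) ^ n * U ce L n 1 = 1 := by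
  have h5' : p % 5 ≠ 0 := by
    intro h
    have := (Nat.prime_dvd_prime_iff_eq Nat.prime_five hp).1 (Nat.dvd_of_mod_eq_zero h)
    omega
  have F0 : F 0 = 0 := by simp [F]
  have F1 : F 1 = 1 := by simp [F]
  have L0 : L 0 = 2 := by simp [L, luc]
  have L1 : L 1 = 1 := by simp [L, luc]
  have hε : ε p = jacobiSym ((p : ℤ) % 5) 5 := by
    unfold ε; exact jacobiSym.mod_left _ _
  have hm1 : L p = F p + 2 * F ((p : ℤ) - 1).toNat := by
    have h : ((p : ℤ) - 1).toNat = 2 * n := by omega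
    have h1 := F_rec (2 * n)
    rw [h, L_eq, hn, show 2 * n + 1 + 1 = 2 * n + 2 by ring, h1]; ring
  have hp1 : L p = -F p + 2 * F ((p : ℤ) - (-1)).toNat := by
    have h : ((p : ℤ) - (-1)).toNat = p + 1 := by omega
    rw [h, L_eq]; ring
  obtain ⟨m, hm⟩ : ∃ m, p = 10 * m + p % 10 := ⟨p / 10, by omega⟩
  obtain ⟨D1, D3, D7, D9⟩ := valD F_rec m
  obtain ⟨E0, E1, E3, E4⟩ := valE F_rec m
  obtain ⟨D1', D3', D7', D9'⟩ := valD L_rec m
  obtain ⟨E0', E1', E3', E4'⟩ := valE L_rec m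
  have hr : p % 10 = 1 ∨ p % 10 = 3 ∨ p % 10 = 7 ∨ p % 10 = 9 := by omega
  rcases hr with hr | hr | hr | hr
  · have e1 : ε p = 1 := by
      rw [hε, show (p : ℤ) % 5 = 1 by omega]; norm_num
    rw [e1]
    rw [hr] at hm
    have hn' : n = 5 * m := by omega
    refine ⟨by norm_num, by rw [hm1]; push_cast; ring, ?_, ?_, ?_, ?_⟩
    · rw [hm, D1, F0, F1]; norm_num
    · rw [hm, D1', L0, L1]; norm_num
    · rw [hn', E0, F1]; norm_num
    · rw [hn', E0', L1]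
  · have e1 : ε p = -1 := by
      rw [hε, show (p : ℤ) % 5 = 3 by omega]; norm_num
    rw [e1]
    rw [hr] at hm
    have hn' : n = 5 * m + 1 := by omega
    refine ⟨by norm_num, by rw [hp1]; push_cast; ring, ?_, ?_, ?_, ?_⟩
    · rw [hm, D3, F1]; norm_num
    · rw [hm, D3', L1]
    · rw [hn', E1, F0, F1]; norm_num
    · rw [hn', E1', L0, L1]; norm_num
  · have e1 : ε p = -1 := by
      rw [hε, show (p : ℤ) % 5 = 2 by omega]; norm_num
    rw [e1]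
    rw [hr] at hm
    have hn' : n = 5 * m + 3 := by omega
    refine ⟨by norm_num, by rw [hp1]; push_cast; ring, ?_, ?_, ?_, ?_⟩
    · rw [hm, D7, F1]; norm_num
    · rw [hm, D7', L1]
    · rw [hn', E3, F0, F1]; norm_num
    · rw [hn', E3', L0, L1]; norm_num
  · have e1 : ε p = 1 := by
      rw [hε, show (p : ℤ) % 5 = 4 by omega]; norm_num
    rw [e1]
    rw [hr] at hm
    have hn' : n = 5 * m + 4 := by omega
    refine ⟨by norm_num, by rw [hm1]; push_cast; ring, ?_, ?_, ?_, ?_⟩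
    · rw [hm, D9, F0, F1]; norm_num
    · rw [hm, D9', L0, L1]; norm_num
    · rw [hn', E4, F1]; norm_num
    · rw [hn', E4', L1]

lemma div_p {p : ℕ} [hp : Fact p.Prime] {k : ℕ} {x : ℚ} (h : PO p (k + 1) x) : PO p k (x / p) := by
  unfold PO at *
  have hp0 : (0 : ℚ) < p := by exact_mod_cast hp.out.pos
  rw [padicNorm.div, padicNorm.padicNorm_p_of_prime, div_inv_eq_mul]
  have h1 : (p : ℚ) ^ (-(k : ℤ)) = (p : ℚ) ^ (-((k + 1 : ℕ) : ℤ)) * p := by
    rw [← zpow_add_one₀ hp0.ne']; congr 1; push_cast; ring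
  rw [h1]
  exact mul_le_mul_of_nonneg_right h hp0.le

lemma cong_of {p : ℕ} [hp : Fact p.Prime] {a b : ℚ} (h : PO p 2 (a - b)) : Cong p a b := by
  obtain ⟨z, h1, h2⟩ := PO.exists_rep h
  exact ⟨z, fun h => hp.out.one_lt.ne' (Nat.Coprime.eq_one_of_dvd h1.symm h), h2⟩

/-- For every prime `p ≠ 2, 5` all four congruences hold. -/
theorem result (p : ℕ) (hp : p.Prime) (h2 : p ≠ 2) (h5 : p ≠ 5) :
    Cong p (p * ∑ k ∈ Ico 1 p, F (2 * k) / ((k : ℚ) ^ 2 * c k)) (-(ε p) * (3 * q p / 2 + 5 * p * q p ^ 2 / 4)) ∧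
    Cong p (p * ∑ k ∈ Ico 1 p, L (2 * k) / ((k : ℚ) ^ 2 * c k)) (-(5 * q p / 2) - 15 * p * q p ^ 2 / 4) ∧
    Cong p (∑ k ∈ range ((p - 3) / 2 + 1), c k * F (2 * k + 1) / ((2 * k + 1) * 16 ^ k))
      ((-1) ^ ((p + 1) / 2) * ε p * (q p / 2 + 5 * p * q p ^ 2 / 8)) ∧
    Cong p (∑ k ∈ range ((p - 3) / 2 + 1), c k * L (2 * k + 1) / ((2 * k + 1) * 16 ^ k))
      ((-1) ^ ((p + 1) / 2) * (5 * q p / 2 + 5 * p * q p ^ 2 / 8)) := by
  have : Fact p.Prime := ⟨hp⟩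
  obtain ⟨n, hn⟩ : ∃ n, p = 2 * n + 1 := hp.odd_of_ne_two h2
  have hp2 := hp.two_le
  have hp0 : (p : ℚ) ≠ 0 := by exact_mod_cast hp.ne_zero
  obtain ⟨he, hL, dF, dL, eF, eL⟩ := cases hp h5 hn
  obtain ⟨e, hee⟩ : ∃ e : ℚ, e = (ε p : ℤ) := ⟨_, rfl⟩
  rw [← hee] at he hL dF eF
  have hs : ((-1 : ℚ) ^ n) * (-1) ^ n = 1 := by rw [← mul_pow]; norm_num
  have hs0 : PO p 0 ((-1 : ℚ) ^ n) := by
    have : PO p 0 (-1 : ℚ) := one.neg
    exact this.pow0 n
  have he0 : PO p 0 e := by rw [hee]; exact of_int _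
  have hF0 : ∀ m, PO p 0 (F m) := fun m => of_nat _
  have hL0 : ∀ m, PO p 0 (L m) := fun m => of_int _
  obtain ⟨a1, a2⟩ := odd_main hn hF0
  obtain ⟨b1, b2⟩ := odd_main hn hL0
  have c1 := even_main h2 hF0
  have d1 := even_main h2 hL0
  obtain ⟨uF, huF⟩ : ∃ uF : ℚ, uF = U ce F n 1 := ⟨_, rfl⟩
  obtain ⟨uL, huL⟩ : ∃ uL : ℚ, uL = U ce L n 1 := ⟨_, rfl⟩
  rw [← huF] at a1 a2 eF
  rw [← huL] at b1 b2 eL
  have hF' : F p = e * (e * F p) := by linear_combination (-(F p)) * he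
  obtain ⟨f, hf⟩ : ∃ f : ℚ, f = e * F p := ⟨_, rfl⟩
  obtain ⟨Q, hQ⟩ : ∃ Q : ℚ, Q = F ((p : ℤ) - ε p).toNat := ⟨_, rfl⟩
  rw [← hf] at hF' hL
  rw [← hQ] at hL
  have hq : q p = Q / p := by rw [q, hQ]
  have hf1 : PO p 1 (f - 1) := by
    have e1 : f - 1 = -(e * ((-1) ^ n * (uF - (-1) ^ n * F p))) := by
      have : (-1 : ℚ) ^ n * (uF - (-1) ^ n * F p) = e - F p := by linear_combination eF - F p * hs
      rw [this, hF']; linear_combination (-f + 1) * he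
    rw [e1]
    exact (he0.mul0 (hs0.mul0 a2)).neg
  have hL1 : PO p 1 (L p - 1) := by
    have e1 : L p - 1 = -((-1) ^ n * (uL - (-1) ^ n * L p)) := by linear_combination eL - L p * hs
    rw [e1]
    exact (hs0.mul0 b2).neg
  have hh := half (p := p) h2
  have hQ1 : PO p 1 Q := by
    have e1 : Q = 1 / 2 * ((L p - 1) - (f - 1)) := by rw [hL]; ring
    rw [e1]
    exact hh.mul0 (hL1.sub hf1)
  have hodd : ((-1 : ℚ)) ^ p = -1 := (hp.odd_of_ne_two h2).neg_one_pow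
  have hquad : f ^ 2 - Q * f - Q ^ 2 - 1 = 0 := by
    have h1 := LF p
    rw [hodd, hL, hF'] at h1
    have he4 : e ^ 2 * f ^ 2 = f ^ 2 := by rw [he, one_mul]
    linear_combination (-1 / 4) * h1 - (5 / 4) * he4
  have hδ := quad h2 hquad hf1 hQ1
  obtain ⟨δ, hδd⟩ : ∃ δ : ℚ, δ = f - 1 - Q / 2 - 5 * Q ^ 2 / 8 := ⟨_, rfl⟩
  rw [← hδd] at hδ
  have hδp := div_p hδ
  have hfd : f = 1 + Q / 2 + 5 * Q ^ 2 / 8 + δ := by rw [hδd]; ring
  have hsgn : ((-1 : ℚ)) ^ ((p + 1) / 2) = -(-1) ^ n := by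
    rw [show (p + 1) / 2 = n + 1 by omega, pow_succ]; ring
  have hrange : (p - 3) / 2 + 1 = n := by omega
  have hε : (((ε p : ℤ)) : ℚ) = e := hee.symm
  refine ⟨?_, ?_, ?_, ?_⟩
  · apply cong_of
    rw [hq, hε]
    have key : (p : ℚ) * ∑ k ∈ Ico 1 p, F (2 * k) / ((k : ℚ) ^ 2 * c k) - -e * (3 * (Q / p) / 2 + 5 * p * (Q / p) ^ 2 / 4) =
      ((p : ℚ) * ∑ k ∈ Ico 1 p, F (2 * k) / ((k : ℚ) ^ 2 * (k.centralBinom : ℚ)) - (2 * F 0 - F (2 * p) - U cd F p 0) / (2 * p)) -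
      e * (1 / 2 * (3 * (Q * (δ / p)) + 3 * (5 * (1 / 2) ^ 3 * (Q ^ 3 / p)))) := by
      have hF2 : F (2 * p) = e * (f * (f + 2 * Q)) := by rw [F_double, hL, hF']; ring
      have hF0' : F 0 = 0 := by simp [F]
      rw [hF2, dF, hF0']
      unfold c
      simp only [Nat.centralBinom]
      have hff : f * (f + 2 * Q) = 1 + 3 * Q * f + Q ^ 2 := by linear_combination hquad
      rw [hff, hfd]
      field_simp
      ring
    rw [key]
    have hQ3 : PO p 3 (Q ^ 3) := hQ1.pow 3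
    refine c1.sub (he0.mul0 (hh.mul0 (((of_ofNat 3).mul0 ((hQ1.mono (by norm_num)).mul0 hδp)).add ((of_ofNat 3).mul0 (((of_ofNat 5).mul0 (hh.pow0 3)).mul0 (div_p hQ3))))))
  · apply cong_of
    rw [hq]
    have key : (p : ℚ) * ∑ k ∈ Ico 1 p, L (2 * k) / ((k : ℚ) ^ 2 * c k) - (-(5 * (Q / p) / 2) - 15 * p * (Q / p) ^ 2 / 4) =
      ((p : ℚ) * ∑ k ∈ Ico 1 p, L (2 * k) / ((k : ℚ) ^ 2 * (k.centralBinom : ℚ)) - (2 * L 0 - L (2 * p) - U cd L p 0) / (2 * p)) -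
      (1 / 2 * (5 * (Q * (δ / p)) + 5 * (5 * (1 / 2) ^ 3 * (Q ^ 3 / p)))) := by
      have hL2 : L (2 * p) = (f + 2 * Q) ^ 2 + 2 := by rw [L_double, hL, hodd]; ring
      have hL0' : L 0 = 2 := by simp [L, luc]
      rw [hL2, dL, hL0']
      unfold c
      simp only [Nat.centralBinom]
      have hff : (f + 2 * Q) ^ 2 = 1 + 5 * Q * f + 5 * Q ^ 2 := by linear_combination hquad
      rw [hff, hfd]
      field_simp
      ring
    rw [key]
    have hQ3 : PO p 3 (Q ^ 3) := hQ1.pow 3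
    refine d1.sub (hh.mul0 (((of_ofNat 5).mul0 ((hQ1.mono (by norm_num)).mul0 hδp)).add ((of_ofNat 5).mul0 (((of_ofNat 5).mul0 (hh.pow0 3)).mul0 (div_p hQ3)))))
  · apply cong_of
    rw [hq, hε, hsgn, hrange]
    have key : ∑ k ∈ range n, c k * F (2 * k + 1) / ((2 * k + 1) * 16 ^ k) - -(-1) ^ n * e * (Q / p / 2 + 5 * p * (Q / p) ^ 2 / 8) =
      (∑ k ∈ range n, (k.centralBinom : ℚ) * F (2 * k + 1) / ((2 * k + 1) * 16 ^ k) - (uF - (-1) ^ n * F p) / p) -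
      (-1) ^ n * e * (δ / p) := by
      unfold c
      simp only [Nat.centralBinom]
      have h1 : uF = (-1) ^ n * e := by linear_combination (-1) ^ n * eF - uF * hs
      rw [h1, hF', hfd]
      field_simp
      ring
    rw [key]
    exact a1.sub ((hs0.mul0 he0).mul0 hδp)
  · apply cong_of
    rw [hq, hsgn, hrange]
    have key : ∑ k ∈ range n, c k * L (2 * k + 1) / ((2 * k + 1) * 16 ^ k) - -(-1) ^ n * (5 * (Q / p) / 2 + 5 * p * (Q / p) ^ 2 / 8) =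
      (∑ k ∈ range n, (k.centralBinom : ℚ) * L (2 * k + 1) / ((2 * k + 1) * 16 ^ k) - (uL - (-1) ^ n * L p) / p) -
      (-1) ^ n * (δ / p) := by
      unfold c
      simp only [Nat.centralBinom]
      have h1 : uL = (-1) ^ n := by linear_combination (-1) ^ n * eL - uL * hs
      rw [h1, hL, hfd]
      field_simp
      ring
    rw [key]
    exact b1.sub (hs0.mul0 hδp)

end Pool.Agent.Results.MP_0a65fc_nt.AllFour
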